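import Pool.Agent.Lib.MP_b66c90_nt.A1
import Pool.Agent.Lib.MP_b66c90_nt.A2
import Pool.Agent.Lib.MP_b66c90_nt.Aff
import Pool.Agent.Lib.MP_b66c90_nt.Euler
import Pool.Agent.Lib.MP_b66c90_nt.EG
import Pool.Agent.Lib.MP_b66c90_nt.EF
import Pool.Agent.Lib.MP_b66c90_nt.Ev
import Pool.Agent.Lib.MP_b66c90_nt.H
import Pool.Agent.Lib.MP_b66c90_nt.Ja
import Pool.Agent.Lib.MP_b66c90_nt.Jb
import Pool.Agent.Lib.MP_b66c90_nt.Jc
import Pool.Agent.Lib.MP_b66c90_nt.Qa
import Pool.Agent.Lib.MP_b66c90_nt.Qb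
import Pool.Agent.Lib.MP_b66c90_nt.Qc
import Pool.Agent.Lib.MP_b66c90_nt.Qf
import Pool.Agent.Lib.MP_b66c90_nt.Main
import Pool.Agent.Lib.MP_b66c90_nt.CaseD
import Pool.Agent.Lib.MP_b66c90_nt.Cases

open Finset

namespace Pool.Agent.Results.MP_b66c90_nt.SunConjecture

/-- The Franel number `f_n`. -/
def franel (n : ℕ) : ℕ := ∑ k ∈ range (n + 1), (n.choose k) ^ 3

/-- The sum `Z_p(m)` of the terms `binom(2n,n) f_n / m ^ n` over `0 ≤ n < p`. -/
def Zsum (p : ℕ) (m : ℚ) : ℚ :=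
  ∑ n ∈ range p, ((2 * n).choose n : ℚ) * (franel n : ℚ) / m ^ n

/-- Congruence modulo `p ^ 2` in the ring of rational numbers with denominator prime to `p`. -/
def CongrSq (p : ℕ) (r s : ℚ) : Prop :=
  ∃ a b : ℤ, ¬ (p : ℤ) ∣ b ∧ r - s = (p : ℚ) ^ 2 * (a / b)

/-- All cases of the question. -/
theorem result (p : ℕ) (hp : p.Prime) (_hp2 : p ≠ 2) :
    (∀ x y : ℤ, p % 12 = 1 → (p : ℤ) = x ^ 2 + y ^ 2 → y % 6 = 0 →
      CongrSq p (Zsum p (-16)) (4 * x ^ 2 - 2 * p)) ∧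
    (∀ x y : ℤ, p % 12 = 1 → (p : ℤ) = x ^ 2 + y ^ 2 → x % 6 = 3 →
      CongrSq p (Zsum p (-16)) (2 * p - 4 * x ^ 2)) ∧
    (∀ x y : ℤ, p % 12 = 5 → (p : ℤ) = x ^ 2 + y ^ 2 →
      CongrSq p (Zsum p (-16)) (4 * legendreSym 3 (x * y) * (x * y))) ∧
    (p % 4 = 3 → CongrSq p (Zsum p (-16)) 0) := by
  have : Fact p.Prime := ⟨hp⟩
  have hZ : Zsum p (-16) = MPb66c90.Zs p := rfl
  have main : ∀ k : ℕ, p = 4 * k + 1 → ∃ α β : ℤ, α ^ 2 + β ^ 2 = p ∧ α % 2 = 1 ∧
      MPb66c90.Cg p 2 (MPb66c90.Zs p) (MPb66c90.V p α β : ℚ) := fun k hk =>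
    MPb66c90.cg_Z MPb66c90.stA1 MPb66c90.stA2 MPb66c90.stAff MPb66c90.stEuler MPb66c90.stE1
      MPb66c90.stE2 MPb66c90.stG2 MPb66c90.stG1 MPb66c90.stEv1 MPb66c90.stEv2 MPb66c90.stEv3
      (MPb66c90.stEv4 MPb66c90.stH1) MPb66c90.stH1 MPb66c90.stH2
      (MPb66c90.stJ MPb66c90.stJa MPb66c90.stJb)
      (MPb66c90.stQ MPb66c90.stQa MPb66c90.stQb MPb66c90.stQc
        (MPb66c90.stJ MPb66c90.stJa MPb66c90.stJb)) p k hk
  have conv : ∀ r : ℚ, MPb66c90.Cg p 2 (MPb66c90.Zs p) r → CongrSq p (Zsum p (-16)) r := by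
    rintro r ⟨z, ⟨a, b, hb, rfl⟩, h⟩
    exact ⟨a, b, hb, by rw [hZ]; exact h⟩
  have sqpar : ∀ u v : ℤ, u ^ 2 = v ^ 2 → (u = v ∨ u = -v) := fun u v h => sq_eq_sq_iff_eq_or_eq_neg.1 h
  refine ⟨?_, ?_, ?_, ?_⟩
  · intro x y h12 hxy hy
    obtain ⟨α, β, h1, h2, h3⟩ := main (p / 4) (by omega)
    have hodd : (α ^ 2 + β ^ 2) % 2 = 1 := by rw [h1]; omega
    have hα : α ^ 2 % 2 = 1 := by
      rw [pow_two, Int.mul_emod, h2]; rfl
    rcases MPb66c90.sq_unique p hp x y α β hxy.symm h1 with ⟨hx, hy'⟩ | ⟨hx, hy'⟩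
    · apply conv
      have h4 : (3 : ℤ) ∣ β := by
        rcases sqpar _ _ hy' with h | h
        · omega
        · omega
      have : (MPb66c90.V p α β : ℚ) = 4 * x ^ 2 - 2 * p := by
        unfold MPb66c90.V
        rw [if_pos h4]
        have hxq : (x : ℚ) ^ 2 = (α : ℚ) ^ 2 := by exact_mod_cast hx
        push_cast
        rw [hxq]
      rw [← this]
      exact h3
    · exfalso
      rcases sqpar _ _ hy' with h | h
      · omega
      · omega
  · intro x y h12 hxy hx3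
    obtain ⟨α, β, h1, h2, h3⟩ := main (p / 4) (by omega)
    have hodd : (α ^ 2 + β ^ 2) % 2 = 1 := by rw [h1]; omega
    have hα : α ^ 2 % 2 = 1 := by
      rw [pow_two, Int.mul_emod, h2]; rfl
    have hβ : β % 2 = 0 := by
      rcases Int.even_or_odd' β with ⟨c, hc | hc⟩
      · omega
      · exfalso
        have : β ^ 2 = 2 * (2 * c ^ 2 + 2 * c) + 1 := by rw [hc]; ring
        omega
    rcases MPb66c90.sq_unique p hp x y α β hxy.symm h1 with ⟨hx, hy'⟩ | ⟨hx, hy'⟩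
    · apply conv
      have h4 : (3 : ℤ) ∣ α := by
        rcases sqpar _ _ hx with h | h
        · omega
        · omega
      have h5 : ¬ (3 : ℤ) ∣ β := by
        rintro ⟨c, hc⟩
        obtain ⟨d, hd⟩ := h4
        have h6 : (p : ℤ) = 3 * (3 * d ^ 2 + 3 * c ^ 2) := by rw [← h1, hc, hd]; ring
        have h7 : (3 : ℕ) ∣ p := by omega
        have h8 := (Nat.prime_dvd_prime_iff_eq Nat.prime_three hp).1 h7
        omega
      have : (MPb66c90.V p α β : ℚ) = 2 * p - 4 * x ^ 2 := by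
        unfold MPb66c90.V
        rw [if_neg h5, if_pos h4]
        have hxq : (x : ℚ) ^ 2 = (α : ℚ) ^ 2 := by exact_mod_cast hx
        push_cast
        rw [hxq]
      rw [← this]
      exact h3
    · exfalso
      rcases sqpar _ _ hx with h | h
      · omega
      · omega
  · intro x y h12 hxy
    obtain ⟨α, β, h1, h2, h3⟩ := main (p / 4) (by omega)
    apply conv
    -- the Legendre symbol modulo three
    have leg1 : ∀ n : ℤ, n % 3 = 1 → legendreSym 3 n = 1 := by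
      intro n hn
      rw [legendreSym.mod]
      have : n % ((3 : ℕ) : ℤ) = 1 := by exact_mod_cast hn
      rw [this]
      exact legendreSym.at_one 3
    have leg2 : ∀ n : ℤ, n % 3 = 2 → legendreSym 3 n = -1 := by
      intro n hn
      rw [legendreSym.mod]
      have : n % ((3 : ℕ) : ℤ) = 2 := by exact_mod_cast hn
      rw [this]
      decide
    have sq3 : ∀ z : ℤ, z % 3 = 0 ∧ z ^ 2 % 3 = 0 ∨ z % 3 ≠ 0 ∧ z ^ 2 % 3 = 1 := by
      intro z
      have hz : z % 3 = 0 ∨ z % 3 = 1 ∨ z % 3 = 2 := by omega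
      rcases hz with h | h | h
      · left; exact ⟨h, by rw [pow_two, Int.mul_emod, h]; rfl⟩
      · right; exact ⟨by omega, by rw [pow_two, Int.mul_emod, h]; rfl⟩
      · right; exact ⟨by omega, by rw [pow_two, Int.mul_emod, h]; rfl⟩
    have hα3 : ¬ (3 : ℤ) ∣ α := by
      intro h
      rcases sq3 α with ⟨h6, h7⟩ | ⟨h6, h7⟩
      · rcases sq3 β with ⟨h8, h9⟩ | ⟨h8, h9⟩ <;> omega
      · omega
    have hβ3 : ¬ (3 : ℤ) ∣ β := by
      intro h
      rcases sq3 β with ⟨h6, h7⟩ | ⟨h6, h7⟩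
      · rcases sq3 α with ⟨h8, h9⟩ | ⟨h8, h9⟩ <;> omega
      · omega
    have hV : (MPb66c90.V p α β : ℤ) = 4 * legendreSym 3 (α * β) * (α * β) := by
      unfold MPb66c90.V
      rw [if_neg hβ3, if_neg hα3]
      split_ifs with hm
      · rw [leg1 _ hm]; ring
      · have hm2 : (α * β) % 3 = 2 := by
          have h0 : (α * β) % 3 ≠ 0 := by
            intro h
            rcases Int.Prime.dvd_mul' Nat.prime_three (Int.dvd_of_emod_eq_zero h) with h | h
            · exact hα3 h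
            · exact hβ3 h
          omega
        rw [leg2 _ hm2]; ring
    have hprod : x * y = α * β ∨ x * y = -(α * β) := by
      rcases MPb66c90.sq_unique p hp x y α β hxy.symm h1 with ⟨hx, hy'⟩ | ⟨hx, hy'⟩
      · apply sqpar
        rw [mul_pow, mul_pow, hx, hy']
      · apply sqpar
        rw [mul_pow, mul_pow, hx, hy', mul_comm]
    have hneg : legendreSym 3 (-(α * β)) = -legendreSym 3 (α * β) := by
      have hαβ : (α * β) % 3 = 1 ∨ (α * β) % 3 = 2 := by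
        have h0 : (α * β) % 3 ≠ 0 := by
          intro h
          rcases Int.Prime.dvd_mul' Nat.prime_three (Int.dvd_of_emod_eq_zero h) with h | h
          · exact hα3 h
          · exact hβ3 h
        omega
      rcases hαβ with h | h
      · rw [leg1 _ h, leg2 _ (by omega)]
      · rw [leg2 _ h, leg1 _ (by omega), neg_neg]
    have hV2 : (MPb66c90.V p α β : ℤ) = 4 * legendreSym 3 (x * y) * (x * y) := by
      rw [hV]
      rcases hprod with h | h
      · rw [h]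
      · rw [h, hneg]; ring
    have : (MPb66c90.V p α β : ℚ) = 4 * legendreSym 3 (x * y) * (x * y) := by
      rw [hV2]; push_cast; ring
    rw [← this]
    exact h3
  · intro h4
    obtain ⟨a, b, hb, h⟩ := MPb66c90.case_d p hp h4
    exact ⟨a, b, hb, by rw [hZ, sub_zero, h, mul_div_assoc]⟩

end Pool.Agent.Results.MP_b66c90_nt.SunConjecture
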